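import Pool.Agent.Lib.MP_7315a9_pr.Product

/-!
# All intensities on graphs with a harmonic map to the plane

The class of graphs in the theorem contains the graphs periodic under a group which maps onto
`ℤ ^ 2` (`periodic_map` in `Lib/MP_7315a9_pr/Periodic.lean`) and the products of the square lattice
with any graph of bounded degrees (`product_map` in `Lib/MP_7315a9_pr/Product.lean`).
-/

open MeasureTheory ProbabilityTheory Set Filter MP7315a9

namespace Pool.Agent.Results.MP_7315a9_pr.HarmonicPlane

/-- For every intensity there is almost surely an infinite class at all large times. -/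
def AllIntensities {V : Type*} [MeasurableSpace V] (G : SimpleGraph V) [G.LocallyFinite] : Prop :=
  ∀ lam : NNReal, 0 < lam → ∃ tc : ℕ, ∀ t ≥ tc, ∀ᵐ ω ∂(snLaw G lam), InfClass ω t

/-- Let `G` be a graph with countably many vertices and bounded degrees which has a harmonic map to
the plane with bounded and uniformly elliptic increments. For every intensity there is almost surely
an infinite class at all large times. -/
theorem result {V : Type*} [Countable V] [Nonempty V] [MeasurableSpace V]
    [DiscreteMeasurableSpace V] (G : SimpleGraph V) [G.LocallyFinite] (Δ : ℕ)
    (hΔ : ∀ v, G.degree v ≤ Δ) (F1 F2 : V → ℝ) (b ε : ℝ) (T0 : ℕ)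
    (hF : PlaneMap G F1 F2 b ε T0) : AllIntensities G :=
  fun _ hlam => plane_all hF hΔ hlam

end Pool.Agent.Results.MP_7315a9_pr.HarmonicPlane
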