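import Pool.Agent.Lib.MP_7315a9_pr.Pos

/-!
# Large intensity: an explicit threshold in terms of the critical parameter
-/

open MeasureTheory ProbabilityTheory Set MP7315a9

namespace Pool.Agent.Results.MP_7315a9_pr.LargeIntensity

lemma countable_of_connected {V : Type*} (G : SimpleGraph V) [G.LocallyFinite]
    (hconn : G.Connected) : Countable V := by
  classical
  obtain ⟨v0⟩ := hconn.nonempty
  have h1 : (univ : Set V) ⊆ ⋃ n : ℕ, (ball G n v0 : Set V) := by
    intro v _
    obtain ⟨p⟩ := hconn.preconnected v0 v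
    exact mem_iUnion.2 ⟨p.length, mem_ball.2 ⟨p, le_rfl⟩⟩
  have h2 : (univ : Set V).Countable :=
    (countable_iUnion fun n => (ball G n v0).countable_toSet).mono h1
  exact countable_univ_iff.1 h2

/-- The condition `p < psi lam` in terms of `lam`. -/
lemma lt_psi {p : ℝ} (hp : p < 1) {lam : NNReal} (h : -2 * Real.log (1 - √(1 - √(1 - p))) < lam) :
    p < psi lam := by
  set a : ℝ := √(1 - p) with ha
  have ha0 : 0 < a := Real.sqrt_pos.2 (by linarith)
  have ha2 : a ^ 2 = 1 - p := Real.sq_sqrt (by linarith)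
  set b : ℝ := √(1 - a) with hb
  have hb0 : 0 ≤ b := Real.sqrt_nonneg _
  have hb1 : b < 1 := by
    rw [hb, Real.sqrt_lt' one_pos]
    linarith
  have hb2 : 1 - a ≤ b ^ 2 := by
    rcases le_or_gt 0 (1 - a) with h0 | h0
    · exact (Real.sq_sqrt h0).ge
    · exact h0.le.trans (sq_nonneg b)
  have hc : 0 < 1 - b := by linarith
  set E : ℝ := Real.exp (-(lam / 2)) with hE
  have hE0 : 0 < E := Real.exp_pos _
  have hE1 : E ≤ 1 := by
    rw [hE, Real.exp_le_one_iff]
    have : (0 : ℝ) ≤ lam := lam.2
    linarith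
  have h1 : E < 1 - b := by
    rw [hE, ← Real.lt_log_iff_exp_lt hc]
    linarith
  have h2 : 1 - (1 - E) ^ 2 < a := by nlinarith
  have h3 : 0 ≤ 1 - (1 - E) ^ 2 := by nlinarith
  have h4 : (1 - (1 - E) ^ 2) ^ 2 < a ^ 2 := pow_lt_pow_left₀ h2 h3 two_ne_zero
  show p < 1 - (1 - (1 - E) ^ 2) ^ 2
  linarith

/-- Let `G` be a connected infinite locally finite graph with `pc G < 1`. For every intensity
`lam > -2 * log (1 - √(1 - √(1 - pc G)))` and every time `t ≥ 1` there is almost surely an infinite
class of walkers at time `t`. -/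
theorem result {V : Type*} [Infinite V] [MeasurableSpace V] [DiscreteMeasurableSpace V]
    (G : SimpleGraph V) [G.LocallyFinite] (hconn : G.Connected) (hpc : pc G < 1) (lam : NNReal)
    (hlam : -2 * Real.log (1 - √(1 - √(1 - pc G))) < lam) (t : ℕ) (ht : 1 ≤ t) :
    ∀ᵐ ω ∂(snLaw G lam), InfClass ω t := by
  have hV : Countable V := countable_of_connected G hconn
  have hG : HasInf G := by
    obtain ⟨v0⟩ := hconn.nonempty
    refine ⟨v0, ?_⟩
    have : {u | G.Reachable v0 u} = univ := eq_univ_of_forall fun u => hconn.preconnected v0 u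
    rw [this]
    exact infinite_univ
  have hdeg : ∀ v, 0 < G.degree v := fun v => hconn.preconnected.degree_pos_of_nontrivial v
  exact upper hG hdeg (lt_psi hpc hlam) ht

end Pool.Agent.Results.MP_7315a9_pr.LargeIntensity
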