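import Pool.Agent.Lib.MP_7315a9_pr.Pos

/-!
# No infinite class at time `t` below an explicit bound
-/

open MeasureTheory ProbabilityTheory Set Filter Topology MP7315a9

namespace Pool.Agent.Results.MP_7315a9_pr.NoClass

/-- `κ = 1 - (1 - (1 - exp (- lam * Δ)) ^ (1 / (Δ * (Δ + 1) ^ t))) ^ (2 * (Δ + 1) ^ t)`. -/
noncomputable def kappa (Δ : ℕ) (lam : NNReal) (t : ℕ) : ℝ :=
  1 - (1 - (1 - Real.exp (-(lam * Δ))) ^ (1 / ((Δ : ℝ) * ((Δ : ℝ) + 1) ^ t))) ^
    (2 * (Δ + 1) ^ t)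

/-- `κ < 1`: no infinite class at any time if `pc G = 1`. -/
lemma kappa_lt_one {Δ : ℕ} (hΔ : 0 < Δ) (lam : NNReal) (t : ℕ) : kappa Δ lam t < 1 := by
  have hE0 : 0 < Real.exp (-(lam * Δ : ℝ)) := Real.exp_pos _
  have hE1 : Real.exp (-(lam * Δ : ℝ)) ≤ 1 := by
    rw [Real.exp_le_one_iff]
    have : (0 : ℝ) ≤ lam * Δ := by positivity
    linarith
  have hΔ' : (0 : ℝ) < Δ := by exact_mod_cast hΔ
  have h1 : (1 - Real.exp (-(lam * Δ : ℝ))) ^ (1 / ((Δ : ℝ) * ((Δ : ℝ) + 1) ^ t)) < 1 :=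
    Real.rpow_lt_one (by linarith) (by linarith) (by positivity)
  have h2 : 0 < (1 - (1 - Real.exp (-(lam * Δ : ℝ))) ^ (1 / ((Δ : ℝ) * ((Δ : ℝ) + 1) ^ t))) ^
    (2 * (Δ + 1) ^ t) := pow_pos (by linarith) _
  show 1 - _ < (1 : ℝ)
  linarith

/-- `κ → 0` as `lam → 0`: for fixed `t` the hypothesis of `result` holds for all small `lam`
(recall that `pc G ≥ 1 / Δ > 0`). -/
lemma kappa_tendsto {Δ : ℕ} (hΔ : 0 < Δ) (t : ℕ) :
    Tendsto (fun lam : NNReal => kappa Δ lam t) (𝓝 0) (𝓝 0) := by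
  have hΔ' : (0 : ℝ) < Δ := by exact_mod_cast hΔ
  have hx : (0 : ℝ) < 1 / ((Δ : ℝ) * ((Δ : ℝ) + 1) ^ t) := by positivity
  have hc : Continuous (fun lam : NNReal => kappa Δ lam t) := by
    have h1 : Continuous (fun lam : NNReal => 1 - Real.exp (-((lam : ℝ) * Δ))) := by fun_prop
    exact continuous_const.sub
      ((continuous_const.sub (h1.rpow_const fun _ => Or.inr hx.le)).pow _)
  have h0 : kappa Δ 0 t = 0 := by
    have h1 : 1 - Real.exp (-(((0 : NNReal) : ℝ) * Δ)) = 0 := by simp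
    rw [kappa, h1, Real.zero_rpow hx.ne']
    simp
  rw [← h0]
  exact hc.tendsto 0

/-- Let `G` be a connected infinite graph with degrees at most `Δ`. If `kappa Δ lam t < pc G`, then
almost surely there is no infinite class of walkers at time `t`. -/
theorem no_class {V : Type*} [Infinite V] [MeasurableSpace V] [DiscreteMeasurableSpace V]
    (G : SimpleGraph V) [G.LocallyFinite] (hconn : G.Connected) (Δ : ℕ)
    (hΔ : ∀ v, G.degree v ≤ Δ) (lam : NNReal) (t : ℕ) (h : kappa Δ lam t < pc G) :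
    ∀ᵐ ω ∂(snLaw G lam), ¬ InfClass ω t := by
  classical
  have hV : Countable V := by
    obtain ⟨v0⟩ := hconn.nonempty
    have h1 : (univ : Set V) ⊆ ⋃ n : ℕ, (ball G n v0 : Set V) := by
      intro v _
      obtain ⟨p⟩ := hconn.preconnected v0 v
      exact mem_iUnion.2 ⟨p.length, mem_ball.2 ⟨p, le_rfl⟩⟩
    have h2 : (univ : Set V).Countable :=
      (countable_iUnion fun n => (ball G n v0).countable_toSet).mono h1
    exact countable_univ_iff.1 h2
  have hdeg : ∀ v, 0 < G.degree v := fun v => hconn.preconnected.degree_pos_of_nontrivial v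
  have hΔ0 : 0 < Δ := by
    obtain ⟨v0⟩ := hconn.nonempty
    exact (hdeg v0).trans_le (hΔ v0)
  have hΔ' : (0 : ℝ) < Δ := by exact_mod_cast hΔ0
  have hE0 : 0 < Real.exp (-(lam * Δ : ℝ)) := Real.exp_pos _
  have hE1 : Real.exp (-(lam * Δ : ℝ)) ≤ 1 := by
    rw [Real.exp_le_one_iff]
    have : (0 : ℝ) ≤ lam * Δ := by positivity
    linarith
  set x : ℝ := 1 / ((Δ : ℝ) * ((Δ : ℝ) + 1) ^ t) with hx
  have hx0 : 0 < x := by positivity
  have hr0 : 0 ≤ (1 - Real.exp (-(lam * Δ : ℝ))) ^ x := Real.rpow_nonneg (by linarith) _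
  have hr1 : (1 - Real.exp (-(lam * Δ : ℝ))) ^ x ≤ 1 :=
    Real.rpow_le_one (by linarith) (by linarith) hx0.le
  refine lower (ρ := ⟨(1 - Real.exp (-(lam * Δ : ℝ))) ^ x, hr0, hr1⟩) hΔ hdeg h ?_
  show 1 - Real.exp (-(lam * Δ : ℝ)) ≤
    ((1 - Real.exp (-(lam * Δ : ℝ))) ^ x) ^ (Δ * (Δ + 1) ^ t)
  rw [← Real.rpow_natCast, ← Real.rpow_mul (by linarith)]
  have h3 : x * ((Δ * (Δ + 1) ^ t : ℕ) : ℝ) = 1 := by
    rw [hx]
    push_cast
    field_simp
  rw [h3, Real.rpow_one]

/-- `1 / Δ ≤ pc G` for a connected infinite graph with degrees at most `Δ`; and `0 < Δ`. -/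
theorem pc_ge_of_connected {V : Type*} [Infinite V] (G : SimpleGraph V) [G.LocallyFinite]
    (hconn : G.Connected) (Δ : ℕ) (hΔ : ∀ v, G.degree v ≤ Δ) :
    0 < Δ ∧ 1 / (Δ : ℝ) ≤ pc G := by
  classical
  obtain ⟨v0⟩ := hconn.nonempty
  have hV : Countable V := by
    have h1 : (univ : Set V) ⊆ ⋃ n : ℕ, (ball G n v0 : Set V) := by
      intro v _
      obtain ⟨p⟩ := hconn.preconnected v0 v
      exact mem_iUnion.2 ⟨p.length, mem_ball.2 ⟨p, le_rfl⟩⟩
    have h2 : (univ : Set V).Countable :=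
      (countable_iUnion fun n => (ball G n v0).countable_toSet).mono h1
    exact countable_univ_iff.1 h2
  have hdeg : ∀ v, 0 < G.degree v := fun v => hconn.preconnected.degree_pos_of_nontrivial v
  refine ⟨(hdeg v0).trans_le (hΔ v0), pc_ge ⟨v0, ?_⟩ hΔ⟩
  have h3 : {u | G.Reachable v0 u} = univ := eq_univ_of_forall fun u => hconn.preconnected v0 u
  rw [h3]
  exact infinite_univ

/-- Let `G` be a connected infinite graph with degrees at most `Δ`.

(1) If `kappa Δ lam t < pc G`, then almost surely there is no infinite class of walkers at time `t`.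
(2) If `pc G = 1`, then almost surely there is no infinite class at time `t`, for all `lam` and `t`.
(3) For every `T` there is `lam₀ > 0`, which depends only on `Δ` and `T`, such that for `lam ≤ lam₀`
almost surely there is no infinite class at any time `t ≤ T`. -/
theorem result.{u} (Δ : ℕ) :
    (∀ (V : Type u) [Infinite V] [MeasurableSpace V] [DiscreteMeasurableSpace V]
      (G : SimpleGraph V) [G.LocallyFinite], G.Connected → (∀ v, G.degree v ≤ Δ) →
      (∀ (lam : NNReal) (t : ℕ), kappa Δ lam t < pc G →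
        ∀ᵐ ω ∂(snLaw G lam), ¬ InfClass ω t) ∧
      (pc G = 1 → ∀ (lam : NNReal) (t : ℕ), ∀ᵐ ω ∂(snLaw G lam), ¬ InfClass ω t)) ∧
    ∀ T : ℕ, ∃ lam₀ : NNReal, 0 < lam₀ ∧
      ∀ (V : Type u) [Infinite V] [MeasurableSpace V] [DiscreteMeasurableSpace V]
        (G : SimpleGraph V) [G.LocallyFinite], G.Connected → (∀ v, G.degree v ≤ Δ) →
        ∀ lam : NNReal, lam ≤ lam₀ →
          ∀ᵐ ω ∂(snLaw G lam), ∀ t : ℕ, t ≤ T → ¬ InfClass ω t := by
  refine ⟨?_, ?_⟩
  · intro V _ _ _ G _ hconn hΔ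
    obtain ⟨hΔ0, -⟩ := pc_ge_of_connected G hconn Δ hΔ
    refine ⟨fun lam t h => no_class G hconn Δ hΔ lam t h, fun h lam t => ?_⟩
    exact no_class G hconn Δ hΔ lam t (by rw [h]; exact kappa_lt_one hΔ0 lam t)
  · intro T
    rcases Nat.eq_zero_or_pos Δ with h0 | hΔ0
    · refine ⟨1, zero_lt_one, ?_⟩
      intro V _ _ _ G _ hconn hΔ
      exact absurd (pc_ge_of_connected G hconn Δ hΔ).1 (by omega)
    · have hΔ' : (0 : ℝ) < 1 / Δ := by
        have : (0 : ℝ) < Δ := by exact_mod_cast hΔ0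
        positivity
      have h1 : ∀ᶠ lam in 𝓝 (0 : NNReal), ∀ t ∈ Finset.range (T + 1),
          kappa Δ lam t < 1 / (Δ : ℝ) := by
        rw [Filter.eventually_all_finset]
        intro t _
        exact (kappa_tendsto hΔ0 t).eventually_lt_const hΔ'
      obtain ⟨ε, hε, h2⟩ := Metric.eventually_nhds_iff.1 h1
      refine ⟨Real.toNNReal (ε / 2), Real.toNNReal_pos.2 (by linarith), ?_⟩
      intro V _ _ _ G _ hconn hΔ lam hlam
      have h3 : (lam : ℝ) ≤ ε / 2 := by
        have := NNReal.coe_le_coe.2 hlam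
        rwa [Real.coe_toNNReal _ (by linarith)] at this
      have h4 : dist lam 0 < ε := by
        rw [NNReal.dist_eq, NNReal.coe_zero, sub_zero, abs_of_nonneg (NNReal.coe_nonneg lam)]
        exact lt_of_le_of_lt h3 (by linarith)
      rw [ae_all_iff]
      intro t
      by_cases ht : t ≤ T
      · filter_upwards [no_class G hconn Δ hΔ lam t
          ((h2 h4 t (Finset.mem_range.2 (by omega))).trans_le
            (pc_ge_of_connected G hconn Δ hΔ).2)] with ω hω _
        exact hω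
      · exact Filter.Eventually.of_forall fun ω h => absurd h ht

end Pool.Agent.Results.MP_7315a9_pr.NoClass
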