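import Pool.Agent.Lib.MP_7315a9_cut.Est

/-!
# Infinite classes at finite times for all intensities under uniform percolation
-/

open MeasureTheory ProbabilityTheory Set MP7315a9

namespace Pool.Agent.Results.MP_7315a9_pr.UniformPercolation

/-- Let `G` be a connected infinite graph with bounded degrees. Suppose that, for some parameter
`p < 1` of Bernoulli bond percolation and some `c > 0`, every vertex is in an infinite cluster with
probability at least `c`, or that `G` is quasi-transitive with `pc G < 1`. Then for every intensity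
`lam > 0` there is `t0` such that almost surely there is an infinite class of walkers at time `t`,
for all `t ≥ t0`. -/
theorem result {V : Type*} [Infinite V] [MeasurableSpace V] [DiscreteMeasurableSpace V]
    (G : SimpleGraph V) [G.LocallyFinite] (hconn : G.Connected) (Δ : ℕ)
    (hΔ : ∀ v, G.degree v ≤ Δ)
    (h : (∃ p : unitInterval, (p : ℝ) < 1 ∧ ∃ c : ℝ, 0 < c ∧ ∀ v, ENNReal.ofReal c ≤
        bits (fun _ : G.edgeSet => p) {ω | {u | (openGraph G ω).Reachable v u}.Infinite}) ∨
      (pc G < 1 ∧ ∃ S : Finset V, ∀ x, ∃ s ∈ S, ∃ φ : G ≃g G, φ s = x))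
    (lam : NNReal) (hlam : 0 < lam) :
    ∃ t0 : ℕ, ∀ t ≥ t0, ∀ᵐ ω ∂(snLaw G lam), InfClass ω t :=
  Cut7315.uniform_thm hconn hΔ h hlam

end Pool.Agent.Results.MP_7315a9_pr.UniformPercolation
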